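import Pool.Agent.Y359.DB.Core
import Pool.Agent.H633R5.FS.Main

/-!
Families of `k`-tuples with a given product and given valuations at the small primes.
-/

set_option autoImplicit false

namespace Pool.Agent.Y359.DB

open Finset H633R5.FS
open scoped Pointwise

theorem sep {N a b l l' : ℤ} (hN : |a - b| < N) (h : a + N * l = b + N * l') :
    l = l' ∧ a = b := by
  have h0 : 0 < N := lt_of_le_of_lt (abs_nonneg _) hN
  have h1 : a - b = N * (l' - l) := by linear_combination h
  have h2 : a - b = 0 := Int.eq_zero_of_abs_lt_dvd ⟨l' - l, h1⟩ hN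
  have h3 : N * (l' - l) = 0 := by rw [← h1, h2]
  rcases mul_eq_zero.1 h3 with h4 | h4
  · omega
  · constructor <;> omega

theorem padic_add (p : ℕ) [Fact p.Prime] (a N l : ℤ) (ha : a ≠ 0) (hal : a + N * l ≠ 0)
    (h : ((p : ℤ) ^ (padicValInt p a + 1)) ∣ N) :
    padicValInt p (a + N * l) = padicValInt p a := by
  set t := padicValInt p a with ht
  have h1 : ((p : ℤ) ^ t) ∣ a := (padicValInt_dvd_iff t a).2 (Or.inr le_rfl)
  have h2 : ((p : ℤ) ^ t) ∣ N := (pow_dvd_pow _ (Nat.le_succ t)).trans h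
  have h3 : ((p : ℤ) ^ t) ∣ a + N * l := dvd_add h1 (h2.mul_right l)
  have h4 : t ≤ padicValInt p (a + N * l) := by
    rcases (padicValInt_dvd_iff t _).1 h3 with h5 | h5
    · exact absurd h5 hal
    · exact h5
  by_contra hne
  have h5 : t + 1 ≤ padicValInt p (a + N * l) := by omega
  have h6 : ((p : ℤ) ^ (t + 1)) ∣ a + N * l := (padicValInt_dvd_iff _ _).2 (Or.inr h5)
  have h7 : ((p : ℤ) ^ (t + 1)) ∣ a := (dvd_add_left (h.mul_right l)).1 h6
  rcases (padicValInt_dvd_iff (t + 1) a).1 h7 with h8 | h8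
  · exact ha h8
  · omega

theorem exists_label {ι : Type} [DecidableEq ι] (T : Finset ι) :
    ∃ l : ι → ℕ, (∀ τ ∈ T, l τ < T.card) ∧ ∀ τ ∈ T, ∀ τ' ∈ T, l τ = l τ' → τ = τ' := by
  refine ⟨fun τ => if h : τ ∈ T then ((T.equivFin ⟨τ, h⟩ : Fin T.card) : ℕ) else 0, ?_, ?_⟩
  · intro τ hτ
    simp only [hτ, dif_pos]
    exact (T.equivFin ⟨τ, hτ⟩).2
  · intro τ hτ τ' hτ' h
    simp only [hτ, hτ', dif_pos] at h
    have h1 := T.equivFin.injective (Fin.ext h)
    exact congrArg Subtype.val h1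

/-- the set `P + N [0, L)` -/
def thick (N : ℤ) (L : ℕ) (P : Finset ℤ) : Finset ℤ :=
  (P ×ˢ range L).image fun x => x.1 + N * (x.2 : ℤ)

theorem thick_card (N : ℤ) (L : ℕ) (P : Finset ℤ)
    (h : ∀ r ∈ P, ∀ r' ∈ P, |r - r'| < N) : (thick N L P).card = P.card * L := by
  unfold thick
  rw [Finset.card_image_of_injOn, Finset.card_product, Finset.card_range]
  rintro ⟨r, l⟩ hx ⟨r', l'⟩ hy hxy
  rw [Finset.mem_coe, Finset.mem_product] at hx hy
  have h1 : r + N * (l : ℤ) = r' + N * (l' : ℤ) := hxy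
  obtain ⟨h2, h3⟩ := sep (h r hx.1 r' hy.1) h1
  have h4 : l = l' := by exact_mod_cast h2
  rw [h3, h4]

theorem thick_card_le (N : ℤ) (L : ℕ) (P : Finset ℤ) : (thick N L P).card ≤ P.card * L := by
  unfold thick
  refine Finset.card_image_le.trans ?_
  rw [Finset.card_product, Finset.card_range]

theorem class_bound (k : ℕ) (hk : 1 ≤ k) :
    ∃ c : ℝ, 0 < c ∧ ∀ e : ℝ, 0 < e → e ≤ 1 / (2 * k) →
      ∀ (A P : Fin k → Finset ℤ), (∀ i, (P i).Nonempty) → ∀ u : ℤ, u ≠ 0 →
      ∀ T : Finset (Fin k → ℤ), T.Nonempty → (∀ τ ∈ T, (∀ i, τ i ∈ A i) ∧ ∏ i, τ i = u) →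
      (∀ q : ℕ, q.Prime → (q : ℝ) < Real.exp (c / e) → ∀ i, ∀ τ ∈ T, ∀ τ' ∈ T,
        padicValInt q (τ i) = padicValInt q (τ' i)) →
      Real.log T.card ≤ 2 * ∑ i, (Real.exp (c / e) *
        Real.log (2 * (((A i + P i).card : ℝ) / (P i).card)) + e * Real.log (P i).card) +
        2 * (k * Real.log 2) := by
  have hk0 : (0 : ℝ) < k := by exact_mod_cast hk
  have hk1 : (1 : ℝ) ≤ k := by exact_mod_cast hk
  obtain ⟨c, hc, hcore⟩ := core k hk
  refine ⟨c, hc, ?_⟩
  intro e he he1 A P hP u hu T hT hTA hsm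
  set K : ℝ := Real.exp (c / e) with hK
  have hK0 : 0 < K := Real.exp_pos _
  have heone : e ≤ 1 := by
    refine he1.trans ?_
    rw [div_le_one (by positivity)]
    linarith
  set L := T.card with hL
  have hL0 : 0 < L := hT.card_pos
  obtain ⟨l, hl, hlinj⟩ := exists_label T
  -- a bound for the reference sets
  obtain ⟨W, hW0, hW⟩ : ∃ W : ℤ, 0 < W ∧ ∀ i, ∀ r ∈ P i, |r| < W := by
    refine ⟨1 + ∑ i, ∑ r ∈ P i, |r|, ?_, ?_⟩
    · have : 0 ≤ ∑ i, ∑ r ∈ P i, |r| :=
        Finset.sum_nonneg fun i _ => Finset.sum_nonneg fun r _ => abs_nonneg r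
      linarith
    · intro i r hr
      have h1 : |r| ≤ ∑ r ∈ P i, |r| :=
        Finset.single_le_sum (f := fun r => |r|) (fun r _ => abs_nonneg r) hr
      have h2 : ∑ r ∈ P i, |r| ≤ ∑ i, ∑ r ∈ P i, |r| :=
        Finset.single_le_sum (f := fun i => ∑ r ∈ P i, |r|)
          (fun i _ => Finset.sum_nonneg fun r _ => abs_nonneg r) (Finset.mem_univ i)
      linarith
  have hu1 : 1 ≤ |u| := Int.one_le_abs hu
  set N : ℤ := 4 * u ^ 2 * W with hN
  have husq : u ^ 2 = |u| * |u| := by rw [← sq_abs, sq]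
  have hNu : 2 * |u| < N := by
    rw [hN, husq]
    nlinarith [mul_le_mul hu1 hu1 (by norm_num) (abs_nonneg u)]
  have hNW : 2 * W < N := by
    rw [hN, husq]
    nlinarith [mul_le_mul hu1 hu1 (by norm_num) (abs_nonneg u)]
  set v : Fin k → (Fin k → ℤ) → ℤ := fun i τ => τ i + N * (l τ : ℤ) with hv
  have hdvd : ∀ τ ∈ T, ∀ i, τ i ∣ u := fun τ hτ i => by
    rw [← (hTA τ hτ).2]
    exact Finset.dvd_prod_of_mem _ (Finset.mem_univ i)
  have habs : ∀ τ ∈ T, ∀ i, |τ i| ≤ |u| := fun τ hτ i => by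
    have h1 : (τ i).natAbs ≤ u.natAbs :=
      Nat.le_of_dvd (Int.natAbs_pos.2 hu) (Int.natAbs_dvd_natAbs.2 (hdvd τ hτ i))
    rw [Int.abs_eq_natAbs, Int.abs_eq_natAbs]
    exact_mod_cast h1
  have hne : ∀ τ ∈ T, ∀ i, τ i ≠ 0 := fun τ hτ i h => hu (by
    have := hdvd τ hτ i
    rw [h] at this
    exact zero_dvd_iff.1 this)
  have hvinj : ∀ i, Set.InjOn (v i) T := by
    intro i τ hτ τ' hτ' h
    have h1 : |τ i - τ' i| < N := by
      refine lt_of_le_of_lt (abs_sub _ _) ?_
      have := habs τ hτ i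
      have := habs τ' hτ' i
      linarith
    have h2 := (sep h1 h).1
    exact hlinj τ hτ τ' hτ' (by exact_mod_cast h2)
  have hvne : ∀ i, ∀ τ ∈ T, v i τ ≠ 0 := by
    intro i τ hτ h
    have h1 : |τ i - 0| < N := by
      rw [sub_zero]
      have := habs τ hτ i
      linarith
    have h2 := (sep (l := (l τ : ℤ)) (l' := 0) h1 (by
      rw [mul_zero, add_zero]; exact h)).2
    exact hne τ hτ i h2
  set Q : Set ℕ := {p | p.Prime ∧ (p : ℤ) ∣ u ∧ K ≤ p} with hQ
  have hval : ∀ p ∈ Q, ∀ i, ∀ τ ∈ T, padicValInt p (v i τ) = padicValInt p (τ i) := by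
    rintro p ⟨hp, hpu, _⟩ i τ hτ
    have hpf : Fact p.Prime := ⟨hp⟩
    apply padic_add p (τ i) N (l τ) (hne τ hτ i) (hvne i τ hτ)
    have h1 : padicValInt p (τ i) ≤ padicValInt p u := by
      have h2 : ((p : ℤ) ^ padicValInt p (τ i)) ∣ u :=
        ((padicValInt_dvd_iff _ _).2 (Or.inr le_rfl)).trans (hdvd τ hτ i)
      rcases (padicValInt_dvd_iff _ _).1 h2 with h3 | h3
      · exact absurd h3 hu
      · exact h3
    have h2 : 1 ≤ padicValInt p u := by
      have h3 : ((p : ℤ) ^ 1) ∣ u := by rw [pow_one]; exact hpu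
      rcases (padicValInt_dvd_iff _ _).1 h3 with h4 | h4
      · exact absurd h4 hu
      · exact h4
    have h3 : ((p : ℤ) ^ padicValInt p u) ∣ u := (padicValInt_dvd_iff _ _).2 (Or.inr le_rfl)
    have h4 : ((p : ℤ) ^ (padicValInt p u * 2)) ∣ u ^ 2 := by
      rw [pow_mul]
      exact pow_dvd_pow_of_dvd h3 2
    have h5 : u ^ 2 ∣ N := by
      rw [hN]
      exact ⟨4 * W, by ring⟩
    exact ((pow_dvd_pow _ (by omega)).trans h4).trans h5
  have hsum : ∀ p ∈ Q, ∀ τ ∈ T, ∑ i, padicValInt p (v i τ) = padicValInt p u := by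
    intro p hp τ hτ
    have hpf : Fact p.Prime := ⟨hp.1⟩
    rw [Finset.sum_congr rfl fun i _ => hval p hp i τ hτ, ← (hTA τ hτ).2,
      padicValInt_prod p _ _ fun i _ => hne τ hτ i]
  have hbase : ∀ T' ⊆ T, T'.Nonempty → (∀ p ∈ Q, ∀ i, ∀ τ ∈ T', ∀ τ' ∈ T',
      padicValInt p (v i τ) = padicValInt p (v i τ')) → (T'.card : ℝ) ≤ 2 ^ k := by
    rintro T' hT' ⟨τ₀, hτ₀⟩ hconst
    have h1 : T' ⊆ Fintype.piFinset fun i => ({τ₀ i, -τ₀ i} : Finset ℤ) := by
      intro τ hτ
      rw [Fintype.mem_piFinset]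
      intro i
      have h2 : (τ i).natAbs = (τ₀ i).natAbs := by
        apply natAbs_eq_of_padic (hne τ (hT' hτ) i) (hne τ₀ (hT' hτ₀) i)
        intro p hp
        have hpf : Fact p.Prime := ⟨hp⟩
        by_cases hpu : (p : ℤ) ∣ u
        · by_cases hpK : K ≤ p
          · have hpQ : p ∈ Q := ⟨hp, hpu, hpK⟩
            rw [← hval p hpQ i τ (hT' hτ), ← hval p hpQ i τ₀ (hT' hτ₀)]
            exact hconst p hpQ i τ hτ τ₀ hτ₀
          · exact hsm p hp (not_le.1 hpK) i τ (hT' hτ) τ₀ (hT' hτ₀)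
        · have h3 : ∀ τ ∈ T, padicValInt p (τ i) = 0 := by
            intro τ hτ
            by_contra h4
            have h5 : ((p : ℤ) ^ 1) ∣ τ i := (padicValInt_dvd_iff _ _).2 (Or.inr (by omega))
            rw [pow_one] at h5
            exact hpu (h5.trans (hdvd τ hτ i))
          rw [h3 τ (hT' hτ), h3 τ₀ (hT' hτ₀)]
      rw [Finset.mem_insert, Finset.mem_singleton]
      exact Int.natAbs_eq_natAbs_iff.1 h2
    have h2 : T'.card ≤ 2 ^ k := by
      refine (Finset.card_le_card h1).trans ?_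
      rw [Fintype.card_piFinset]
      calc ∏ i, ({τ₀ i, -τ₀ i} : Finset ℤ).card ≤ ∏ _i : Fin k, 2 :=
            Finset.prod_le_prod' fun i _ => Finset.card_le_two
        _ = 2 ^ k := by simp
    exact_mod_cast h2
  have hPt : ∀ i, (thick N L (P i)).card = (P i).card * L := fun i =>
    thick_card N L (P i) fun r hr r' hr' => by
      refine lt_of_le_of_lt (abs_sub _ _) ?_
      have := hW i r hr
      have := hW i r' hr'
      linarith
  have hPne : ∀ i, (thick N L (P i)).Nonempty := fun i => by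
    rw [← Finset.card_pos, hPt i]
    exact Nat.mul_pos (hP i).card_pos hL0
  have hmain := hcore e he heone K hK (Fin k → ℤ) Q (fun p hp => ⟨hp.1, hp.2.2⟩) v (2 ^ k)
    (one_le_pow₀ (by norm_num)) L T rfl hT hvinj hvne
    (fun p hp τ hτ τ' hτ' => by rw [hsum p hp τ hτ, hsum p hp τ' hτ']) hbase
    (fun i => thick N L (P i)) hPne
  have cL : (0 : ℝ) < L := by exact_mod_cast hL0
  have hcost : ∀ i, G K e (T.image (v i)) (thick N L (P i)) ≤
      K * Real.log (2 * (((A i + P i).card : ℝ) / (P i).card)) +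
        e * (Real.log (P i).card + Real.log L) := by
    intro i
    have cP : (0 : ℝ) < (P i).card := by exact_mod_cast (hP i).card_pos
    unfold G
    have h1 : g (T.image (v i)) (thick N L (P i)) ≤
        Real.log (2 * (((A i + P i).card : ℝ) / (P i).card)) := by
      refine (g_le _ _ (hT.image _) (hPne i)).trans ?_
      apply Real.log_le_log
      · have h2 : (0 : ℝ) < (T.image (v i) + thick N L (P i)).card := by
          exact_mod_cast ((hT.image _).add (hPne i)).card_pos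
        have h3 : (0 : ℝ) < (thick N L (P i)).card := by exact_mod_cast (hPne i).card_pos
        positivity
      · have h2 : T.image (v i) + thick N L (P i) ⊆ thick N (2 * L) (A i + P i) := by
          intro z hz
          obtain ⟨y, hy, r', hr', rfl⟩ := Finset.mem_add.1 hz
          obtain ⟨τ, hτ, rfl⟩ := Finset.mem_image.1 hy
          obtain ⟨⟨r, m⟩, hx, rfl⟩ := Finset.mem_image.1 hr'
          rw [Finset.mem_product, Finset.mem_range] at hx
          refine Finset.mem_image.2 ⟨(τ i + r, l τ + m), ?_, ?_⟩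
          · rw [Finset.mem_product, Finset.mem_range]
            have h3 := hl τ hτ
            have h4 := hx.2
            refine ⟨Finset.add_mem_add ((hTA τ hτ).1 i) hx.1, ?_⟩
            show l τ + m < 2 * L
            have h5 : m < L := h4
            omega
          · show τ i + r + N * ((l τ + m : ℕ) : ℤ) = τ i + N * (l τ : ℤ) + (r + N * (m : ℤ))
            push_cast
            ring
        have h3 : ((T.image (v i) + thick N L (P i)).card : ℝ) ≤
            ((A i + P i).card : ℝ) * (2 * L) := by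
          have h4 := (Finset.card_le_card h2).trans (thick_card_le _ _ _)
          exact_mod_cast h4
        rw [hPt i]
        push_cast
        rw [div_le_iff₀ (by positivity)]
        refine h3.trans (le_of_eq ?_)
        field_simp
    have h2 : Real.log (thick N L (P i)).card = Real.log (P i).card + Real.log L := by
      rw [hPt i]
      push_cast
      rw [Real.log_mul cP.ne' cL.ne']
    rw [h2]
    have h3 := mul_le_mul_of_nonneg_left h1 hK0.le
    linarith
  have h1 : Real.log L ≤ ∑ i, (K * Real.log (2 * (((A i + P i).card : ℝ) / (P i).card)) +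
        e * (Real.log (P i).card + Real.log L)) + k * Real.log 2 := by
    have h2 : Real.log ((2 : ℝ) ^ k) = k * Real.log 2 := by rw [Real.log_pow]
    rw [h2] at hmain
    refine hmain.trans ?_
    have := Finset.sum_le_sum fun i (_ : i ∈ Finset.univ) => hcost i
    linarith
  have h2 : ∑ i, (K * Real.log (2 * (((A i + P i).card : ℝ) / (P i).card)) +
        e * (Real.log (P i).card + Real.log L)) =
      ∑ i, (K * Real.log (2 * (((A i + P i).card : ℝ) / (P i).card)) +
        e * Real.log (P i).card) + k * e * Real.log L := by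
    have h3 : (k : ℝ) * e * Real.log L = ∑ _i : Fin k, e * Real.log L := by
      rw [Finset.sum_const, Finset.card_univ, Fintype.card_fin, nsmul_eq_mul]; ring
    rw [h3, ← Finset.sum_add_distrib]
    refine Finset.sum_congr rfl fun i _ => ?_
    ring
  rw [h2] at h1
  have h3 : (k : ℝ) * e ≤ 1 / 2 := by
    have h4 := mul_le_mul_of_nonneg_left he1 hk0.le
    have h5 : (k : ℝ) * (1 / (2 * k)) = 1 / 2 := by field_simp
    linarith
  have h4 : 0 ≤ Real.log (L : ℝ) := Real.log_natCast_nonneg _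
  have h5 : (k : ℝ) * e * Real.log L ≤ 1 / 2 * Real.log L := mul_le_mul_of_nonneg_right h3 h4
  linarith

end Pool.Agent.Y359.DB
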