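import Pool.Agent.H633R5.FS.Cell

/-!
Families of `k`-tuples of integers with constant product: the potential of a family.
-/

set_option autoImplicit false

namespace Pool.Agent.Y359.DB

open Finset H633R5.FS
open scoped Pointwise

/-- concavity of the entropy gain for a fixed reference set -/
theorem g_concave (C0 C1 R : Finset ℤ) (hR : R.Nonempty) (hd : Disjoint C0 C1)
    (h0 : C0.Nonempty) (h1 : C1.Nonempty) (x : ℝ)
    (hx : x = (C0.card : ℝ) / ((C0 ∪ C1).card : ℝ)) :
    x * g C0 R + (1 - x) * g C1 R ≤ g (C0 ∪ C1) R := by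
  set C := C0 ∪ C1 with hC
  have hf0 : C.filter (fun c => c ∈ C0) = C0 := by
    ext z
    rw [mem_filter, hC, mem_union]
    tauto
  have hf1 : C.filter (fun c => ¬ c ∈ C0) = C1 := by
    ext z
    rw [mem_filter, hC, mem_union]
    constructor
    · rintro ⟨h | h, h'⟩
      · exact absurd h h'
      · exact h
    · intro h
      exact ⟨Or.inr h, fun h' => (Finset.disjoint_left.1 hd) h' h⟩
  have hcard : (C0.card : ℝ) + C1.card = C.card := by
    rw [hC, card_union_of_disjoint hd]; push_cast; ring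
  have c0 : (0 : ℝ) < C0.card := by exact_mod_cast h0.card_pos
  have c1 : (0 : ℝ) < C1.card := by exact_mod_cast h1.card_pos
  have cC : (0 : ℝ) < C.card := by linarith
  have cR : (0 : ℝ) < R.card := by exact_mod_cast hR.card_pos
  have hx' : 1 - x = (C1.card : ℝ) / C.card := by
    rw [hx]
    field_simp
    linarith
  have id1 : g C R - x * g C0 R - (1 - x) * g C1 R = Psi x (1 - x) -
      (∑ z ∈ C + R, Psi (N C0 R z) (N C1 R z)) / (C.card * R.card) := by
    have e0 : x * g C0 R = x * Real.log C0.card - Lz C0 R / (C.card * R.card) := by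
      unfold g; rw [hx]; field_simp
    have e1 : (1 - x) * g C1 R = (1 - x) * Real.log C1.card - Lz C1 R / (C.card * R.card) := by
      unfold g; rw [hx']; field_simp
    have e2 : Psi x (1 - x) = Real.log C.card - x * Real.log C0.card -
        (1 - x) * Real.log C1.card := by
      rw [Psi_one]
      have f0 : Real.log (1 / x) = Real.log C.card - Real.log C0.card := by
        rw [hx, one_div, Real.log_inv, Real.log_div c0.ne' cC.ne']; ring
      have f1 : Real.log (1 / (1 - x)) = Real.log C.card - Real.log C1.card := by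
        rw [hx', one_div, Real.log_inv, Real.log_div c1.ne' cC.ne']; ring
      rw [f0, f1]
      ring
    rw [e0, e1, e2]
    unfold g
    rw [Lz_split C R (fun c => c ∈ C0), hf0, hf1]
    ring
  have hZ0 : ∀ c ∈ C0, ∀ r ∈ R, c + r ∈ C + R := fun c hc r hr =>
    Finset.add_mem_add (mem_union_left _ hc) hr
  have hZ1 : ∀ c ∈ C1, ∀ r ∈ R, c + r ∈ C + R := fun c hc r hr =>
    Finset.add_mem_add (mem_union_right _ hc) hr
  have s0 : ∑ z ∈ C + R, N C0 R z = (C.card * R.card : ℝ) * x := by
    have := sum_N_mul C0 R (C + R) hZ0 (fun _ => 1)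
    simp only [mul_one, Finset.sum_const, nsmul_eq_mul] at this
    rw [this, hx]
    field_simp
  have s1 : ∑ z ∈ C + R, N C1 R z = (C.card * R.card : ℝ) * (1 - x) := by
    have := sum_N_mul C1 R (C + R) hZ1 (fun _ => 1)
    simp only [mul_one, Finset.sum_const, nsmul_eq_mul] at this
    rw [this, hx']
    field_simp
  have h2 := Psi_sum (C + R) (fun z => N C0 R z) (fun z => N C1 R z)
    (fun z _ => N_nonneg _ _ _) (fun z _ => N_nonneg _ _ _)
  rw [s0, s1, Psi_smul] at h2
  have h3 : (∑ z ∈ C + R, Psi (N C0 R z) (N C1 R z)) / (C.card * R.card) ≤ Psi x (1 - x) := by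
    rw [div_le_iff₀ (by positivity)]
    linarith
  linarith

/-- the cost of a coordinate -/
noncomputable def G (K e : ℝ) (C R : Finset ℤ) : ℝ := K * g C R + e * Real.log R.card

theorem G_nonneg {K e : ℝ} (hK : 0 ≤ K) (he : 0 ≤ e) {C R : Finset ℤ} (hC : C.Nonempty)
    (hR : R.Nonempty) : 0 ≤ G K e C R := by
  unfold G
  have h1 := mul_nonneg hK (g_nonneg C R hC hR)
  have h2 : 0 ≤ Real.log (R.card : ℝ) := Real.log_natCast_nonneg _
  have h3 := mul_nonneg he h2
  linarith

/-- The potential argument. A family `T` of tuples of nonzero integers whose products have constant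
valuations at the primes of a set `𝒫` of large primes, and which is determined by these valuations
up to `B` possibilities, is small if the coordinates have small entropy gain. -/
theorem core (k : ℕ) (hk : 1 ≤ k) :
    ∃ c : ℝ, 0 < c ∧ ∀ e : ℝ, 0 < e → e ≤ 1 → ∀ K : ℝ, K = Real.exp (c / e) →
      ∀ (ι : Type) [DecidableEq ι] (Q : Set ℕ),
      (∀ p ∈ Q, p.Prime ∧ Real.exp (c / e) ≤ p) →
      ∀ (v : Fin k → ι → ℤ) (B : ℝ), 1 ≤ B → ∀ n : ℕ, ∀ T : Finset ι, T.card = n → T.Nonempty →
      (∀ i, Set.InjOn (v i) T) → (∀ i, ∀ τ ∈ T, v i τ ≠ 0) →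
      (∀ p ∈ Q, ∀ τ ∈ T, ∀ τ' ∈ T,
        ∑ i, padicValInt p (v i τ) = ∑ i, padicValInt p (v i τ')) →
      (∀ T' ⊆ T, T'.Nonempty → (∀ p ∈ Q, ∀ i, ∀ τ ∈ T', ∀ τ' ∈ T',
        padicValInt p (v i τ) = padicValInt p (v i τ')) → (T'.card : ℝ) ≤ B) →
      ∀ R : Fin k → Finset ℤ, (∀ i, (R i).Nonempty) →
      Real.log T.card ≤ ∑ i, G K e (T.image (v i)) (R i) + Real.log B := by
  have hk0 : (0 : ℝ) < k := by exact_mod_cast hk
  obtain ⟨c, hc, hcell⟩ := cell 1 (1 / k) one_pos le_rfl (by positivity)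
  refine ⟨c, hc, ?_⟩
  intro e he he1 K hKe ι _ Q hQ v B hB n
  have hK : 0 < K := by rw [hKe]; exact Real.exp_pos _
  induction n using Nat.strong_induction_on with
  | _ n ih =>
  intro T hn hT hinj h0 hsum hbase R hR
  by_cases hconst : ∀ p ∈ Q, ∀ i, ∀ τ ∈ T, ∀ τ' ∈ T,
      padicValInt p (v i τ) = padicValInt p (v i τ')
  · have h1 := hbase T (Finset.Subset.refl _) hT hconst
    have h2 : Real.log T.card ≤ Real.log B :=
      Real.log_le_log (by exact_mod_cast hT.card_pos) h1
    have h3 : 0 ≤ ∑ i, G K e (T.image (v i)) (R i) :=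
      Finset.sum_nonneg fun i _ => G_nonneg hK.le he.le (hT.image _) (hR i)
    linarith
  push Not at hconst
  obtain ⟨p, hpQ, i₁, τ₁, hτ₁, τ₂, hτ₂, hne⟩ := hconst
  obtain ⟨hp, hpp⟩ := hQ p hpQ
  have hpf : Fact p.Prime := ⟨hp⟩
  have hmin : ∀ i, ∃ t : ℕ, (∀ τ ∈ T, t ≤ padicValInt p (v i τ)) ∧
      ∃ τ ∈ T, padicValInt p (v i τ) = t := by
    intro i
    obtain ⟨τ, hτ, hm⟩ := Finset.exists_min_image T (fun τ => padicValInt p (v i τ)) hT
    exact ⟨padicValInt p (v i τ), hm, τ, hτ, rfl⟩
  choose t ht hlo using hmin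
  -- some coordinate is often not minimal
  have hcover : ∀ τ ∈ T, ∃ i, padicValInt p (v i τ) ≠ t i := by
    intro τ hτ
    by_contra hcon
    push Not at hcon
    have h1 : ∀ τ' ∈ T, ∀ i, padicValInt p (v i τ') = t i := by
      intro τ' hτ' i
      have h2 := hsum p hpQ τ hτ τ' hτ'
      rw [Finset.sum_congr rfl fun i _ => hcon i] at h2
      have h3 := (Finset.sum_eq_sum_iff_of_le (s := Finset.univ)
        (fun i _ => ht i τ' hτ')).1 h2
      exact (h3 i (Finset.mem_univ i)).symm
    exact hne ((h1 τ₁ hτ₁ i₁).trans (h1 τ₂ hτ₂ i₁).symm)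
  obtain ⟨j, hj⟩ : ∃ j, T.card ≤ k * (T.filter fun τ => padicValInt p (v j τ) ≠ t j).card := by
    by_contra hcon
    push Not at hcon
    have h1 : T.card ≤ ∑ i, (T.filter fun τ => padicValInt p (v i τ) ≠ t i).card := by
      refine le_trans (Finset.card_le_card ?_) (Finset.card_biUnion_le (s := Finset.univ)
        (t := fun i => T.filter fun τ => padicValInt p (v i τ) ≠ t i))
      intro τ hτ
      obtain ⟨i, hi⟩ := hcover τ hτ
      exact Finset.mem_biUnion.2 ⟨i, Finset.mem_univ _, Finset.mem_filter.2 ⟨hτ, hi⟩⟩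
    have hne' : (Finset.univ : Finset (Fin k)).Nonempty := ⟨⟨0, hk⟩, Finset.mem_univ _⟩
    have h2 : ∑ i : Fin k, k * (T.filter fun τ => padicValInt p (v i τ) ≠ t i).card <
        ∑ _i : Fin k, T.card :=
      Finset.sum_lt_sum_of_nonempty hne' fun i _ => hcon i
    rw [← Finset.mul_sum, Finset.sum_const, Finset.card_univ, Fintype.card_fin, smul_eq_mul] at h2
    have h3 := Nat.mul_le_mul_left k h1
    omega
  set Th := T.filter (fun τ => padicValInt p (v j τ) ≠ t j) with hTh
  set Tl := T.filter (fun τ => ¬ padicValInt p (v j τ) ≠ t j) with hTl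
  have hThT : Th ⊆ T := Finset.filter_subset _ _
  have hTlT : Tl ⊆ T := Finset.filter_subset _ _
  have hThne : Th.Nonempty := by
    rw [← Finset.card_pos]
    by_contra hcon
    have h1 : Th.card = 0 := by omega
    rw [h1, mul_zero] at hj
    have := hT.card_pos
    omega
  have hTlne : Tl.Nonempty := by
    obtain ⟨τ, hτ, hτt⟩ := hlo j
    exact ⟨τ, Finset.mem_filter.2 ⟨hτ, not_not.2 hτt⟩⟩
  have hcardT : Th.card + Tl.card = T.card := Finset.card_filter_add_card_filter_not _
  have hcardi : ∀ i, ∀ S ⊆ T, (S.image (v i)).card = S.card := fun i S hS =>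
    Finset.card_image_of_injOn ((hinj i).mono (by exact_mod_cast hS))
  have hhi : hi p (t j) (T.image (v j)) = Th.image (v j) := by
    ext z
    rw [mem_hi, Finset.mem_image, Finset.mem_image]
    constructor
    · rintro ⟨⟨τ, hτ, rfl⟩, h⟩
      exact ⟨τ, Finset.mem_filter.2 ⟨hτ, h⟩, rfl⟩
    · rintro ⟨τ, hτ, rfl⟩
      obtain ⟨h1, h2⟩ := Finset.mem_filter.1 hτ
      exact ⟨⟨τ, h1, rfl⟩, h2⟩
  have hlo' : lo p (t j) (T.image (v j)) = Tl.image (v j) := by
    ext z
    rw [mem_lo, Finset.mem_image, Finset.mem_image]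
    constructor
    · rintro ⟨⟨τ, hτ, rfl⟩, h⟩
      exact ⟨τ, Finset.mem_filter.2 ⟨hτ, not_not.2 h⟩, rfl⟩
    · rintro ⟨τ, hτ, rfl⟩
      obtain ⟨h1, h2⟩ := Finset.mem_filter.1 hτ
      exact ⟨⟨τ, h1, rfl⟩, not_not.1 h2⟩
  set x : ℝ := (Th.card : ℝ) / T.card with hx
  have cT : (0 : ℝ) < T.card := by exact_mod_cast hT.card_pos
  have cTh : (0 : ℝ) < Th.card := by exact_mod_cast hThne.card_pos
  have cTl : (0 : ℝ) < Tl.card := by exact_mod_cast hTlne.card_pos
  have hcardT' : (Th.card : ℝ) + Tl.card = T.card := by exact_mod_cast hcardT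
  have hx0 : 0 < x := by rw [hx]; positivity
  have hx' : 1 - x = (Tl.card : ℝ) / T.card := by
    rw [hx]; field_simp; linarith
  have hx1 : 0 < 1 - x := by rw [hx']; positivity
  have hxk : 1 / (k : ℝ) ≤ x := by
    rw [hx, div_le_div_iff₀ hk0 cT, one_mul, mul_comm]
    exact_mod_cast hj
  obtain ⟨R', R'', hR', hR'', _, hstep⟩ := hcell e he he1 K hKe p hpp (T.image (v j)) (R j)
    (hR j) (by
      intro z hz
      obtain ⟨τ, hτ, rfl⟩ := Finset.mem_image.1 hz
      exact h0 j τ hτ) (t j) (by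
      intro z hz
      obtain ⟨τ, hτ, rfl⟩ := Finset.mem_image.1 hz
      exact ht j τ hτ) (by rw [hhi]; exact hThne.image _) (by rw [hlo']; exact hTlne.image _) x
    (by rw [hhi, hcardi j Th hThT, hcardi j T (Finset.Subset.refl _)])
  have hstep' := hstep hxk
  rw [hhi, hlo'] at hstep'
  unfold F at hstep'
  rw [hcardi j Th hThT, hcardi j Tl hTlT, hcardi j T (Finset.Subset.refl _)] at hstep'
  -- the induction hypothesis
  have hlt1 : Tl.card < n := by
    have := hThne.card_pos
    omega
  have hlt2 : Th.card < n := by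
    have := hTlne.card_pos
    omega
  have ih1 := ih _ hlt1 Tl rfl hTlne (fun i => (hinj i).mono (by exact_mod_cast hTlT))
    (fun i τ hτ => h0 i τ (hTlT hτ))
    (fun q hq τ hτ τ' hτ' => hsum q hq τ (hTlT hτ) τ' (hTlT hτ'))
    (fun T' hT' => hbase T' (hT'.trans hTlT)) (Function.update R j R')
    (fun i => by
      by_cases h : i = j
      · subst h; rw [Function.update_self]; exact hR'
      · rw [Function.update_of_ne h]; exact hR i)
  have ih2 := ih _ hlt2 Th rfl hThne (fun i => (hinj i).mono (by exact_mod_cast hThT))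
    (fun i τ hτ => h0 i τ (hThT hτ))
    (fun q hq τ hτ τ' hτ' => hsum q hq τ (hThT hτ) τ' (hThT hτ'))
    (fun T' hT' => hbase T' (hT'.trans hThT)) (Function.update R j R'')
    (fun i => by
      by_cases h : i = j
      · subst h; rw [Function.update_self]; exact hR''
      · rw [Function.update_of_ne h]; exact hR i)
  have hsplit : ∀ (S : Finset ι) (R₀ : Finset ℤ),
      ∑ i, G K e (S.image (v i)) (Function.update R j R₀ i) =
      G K e (S.image (v j)) R₀ + ∑ i ∈ Finset.univ.erase j, G K e (S.image (v i)) (R i) := by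
    intro S R₀
    rw [← Finset.add_sum_erase _ _ (Finset.mem_univ j), Function.update_self]
    congr 1
    refine Finset.sum_congr rfl fun i hi => ?_
    rw [Function.update_of_ne (Finset.mem_erase.1 hi).1]
  rw [hsplit] at ih1 ih2
  have hRj : Function.update R j (R j) = R := Function.update_eq_self j R
  have hT' := hsplit T (R j)
  rw [hRj] at hT'
  rw [hT']
  -- the other coordinates
  have hother : ∀ i, (1 - x) * G K e (Tl.image (v i)) (R i) + x * G K e (Th.image (v i)) (R i) ≤
      G K e (T.image (v i)) (R i) := by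
    intro i
    have hun : Th.image (v i) ∪ Tl.image (v i) = T.image (v i) := by
      rw [← Finset.image_union, hTh, hTl, Finset.filter_union_filter_not_eq]
    have hdis : Disjoint (Th.image (v i)) (Tl.image (v i)) := by
      rw [Finset.disjoint_left]
      intro z hz hz'
      obtain ⟨τ, hτ, rfl⟩ := Finset.mem_image.1 hz
      obtain ⟨τ', hτ', he⟩ := Finset.mem_image.1 hz'
      have h1 : τ' = τ := hinj i (hTlT hτ') (hThT hτ) he
      rw [h1] at hτ'
      exact (Finset.mem_filter.1 hτ').2 (Finset.mem_filter.1 hτ).2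
    have h1 := g_concave (Th.image (v i)) (Tl.image (v i)) (R i) (hR i) hdis (hThne.image _)
      (hTlne.image _) x (by
        rw [hun, hcardi i Th hThT, hcardi i T (Finset.Subset.refl _)])
    rw [hun] at h1
    unfold G
    have h2 := mul_le_mul_of_nonneg_left h1 hK.le
    linarith
  have hsumother : (1 - x) * ∑ i ∈ Finset.univ.erase j, G K e (Tl.image (v i)) (R i) +
      x * ∑ i ∈ Finset.univ.erase j, G K e (Th.image (v i)) (R i) ≤
      ∑ i ∈ Finset.univ.erase j, G K e (T.image (v i)) (R i) := by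
    rw [Finset.mul_sum, Finset.mul_sum, ← Finset.sum_add_distrib]
    exact Finset.sum_le_sum fun i _ => hother i
  have j1 := mul_le_mul_of_nonneg_left ih1 hx1.le
  have j2 := mul_le_mul_of_nonneg_left ih2 hx0.le
  unfold G at *
  nlinarith
end Pool.Agent.Y359.DB
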