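import Pool.Agent.H633R5.FS.Small

/-!
The number of different valuations at a prime of the elements of a set with few sums.
-/

set_option autoImplicit false

namespace Pool.Agent.Y359.DB

open Finset H633R5.FS
open scoped Pointwise

/-- the number of different valuations at a prime -/
theorem valuations_card (q : ℕ) [Fact q.Prime] (A P : Finset ℤ) (hA : A.Nonempty)
    (hP : P.Nonempty) (h0 : ∀ a ∈ A, a ≠ 0) :
    Real.log ((A.image fun a => padicValInt q a).card : ℝ) ≤
      5 + 4 * Real.log (((A + P).card : ℝ) / P.card) + Real.log (1 + Real.log P.card) := by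
  classical
  -- representatives
  have hrep : ∀ w ∈ A.image (fun a => padicValInt q a), ∃ a ∈ A, padicValInt q a = w := by
    intro w hw
    exact Finset.mem_image.1 hw
  choose! s hs1 hs2 using hrep
  set W := A.image (fun a => padicValInt q a) with hW
  have hWne : W.Nonempty := hA.image _
  set C := W.image s with hC
  have hCne : C.Nonempty := hWne.image _
  have hCA : C ⊆ A := by
    intro z hz
    obtain ⟨w, hw, rfl⟩ := Finset.mem_image.1 hz
    exact hs1 w hw
  have hCcard : C.card = W.card := by
    apply Finset.card_image_of_injOn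
    intro w hw w' hw' h
    have h1 := hs2 w hw
    have h2 := hs2 w' hw'
    have h' : s w = s w' := h
    rw [← h1, ← h2, h']
  have hinj : ∀ c ∈ C, ∀ c' ∈ C, padicValInt q c = padicValInt q c' → c = c' := by
    intro c hc c' hc' h
    obtain ⟨w, hw, rfl⟩ := Finset.mem_image.1 hc
    obtain ⟨w', hw', rfl⟩ := Finset.mem_image.1 hc'
    rw [hs2 w hw, hs2 w' hw'] at h
    rw [h]
  have cP : (1 : ℝ) ≤ P.card := by exact_mod_cast hP.card_pos
  have hlogP : 0 ≤ Real.log P.card := Real.log_nonneg cP
  set K : ℝ := ((A + P).card : ℝ) / P.card with hK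
  have hK1 : 1 ≤ K := by
    rw [hK, le_div_iff₀ (by linarith), one_mul]
    exact_mod_cast Finset.card_le_card_add_left hA
  have hlogK : 0 ≤ Real.log K := Real.log_nonneg hK1
  set L : ℝ := 2 * Real.log K + 1 with hL
  have hL0 : 0 < L := by linarith
  have hlog2 : 0 < Real.log 2 := Real.log_pos (by norm_num)
  set κ : ℝ := Real.exp (-(2 * L + 2 * Real.log 2)) with hκ
  have hκ0 : 0 < κ := Real.exp_pos _
  have hκ1 : κ ≤ 1 := Real.exp_le_one_iff.2 (by linarith)
  have hlogκ : Real.log (1 / κ) = 2 * L + 2 * Real.log 2 := by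
    rw [one_div, Real.log_inv, hκ, Real.log_exp]; ring
  have hgL : g C P ≤ L / 2 := by
    refine (g_le C P hCne hP).trans ?_
    have h1 : ((C + P).card : ℝ) / P.card ≤ K := by
      apply div_le_div_of_nonneg_right _ (by linarith)
      exact_mod_cast Finset.card_le_card (Finset.add_subset_add_right hCA)
    have h2 : (0 : ℝ) < ((C + P).card : ℝ) / P.card := by
      have : (0 : ℝ) < (C + P).card := by exact_mod_cast (hCne.add hP).card_pos
      positivity
    have h3 := Real.log_le_log h2 h1
    linarith
  obtain ⟨C', hC'C, hC'ne, hconst, hcard⟩ := level q κ L hκ0 hκ1 (by rw [hlogκ]; ring) hL0 C P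
    hCne hP (fun c hc => h0 c (hCA hc)) hgL
  have hC'1 : C'.card = 1 := by
    obtain ⟨c, hc⟩ := hC'ne
    rw [Finset.card_eq_one]
    refine ⟨c, ?_⟩
    ext d
    rw [Finset.mem_singleton]
    constructor
    · intro hd
      exact hinj d (hC'C hd) c (hC'C hc) (hconst d hd c hc)
    · rintro rfl
      exact hc
  rw [hC'1, hCcard] at hcard
  have cW : (0 : ℝ) < W.card := by exact_mod_cast hWne.card_pos
  have h1 : Real.log W.card ≤ Real.log (4 / κ * (1 + Real.log P.card)) := by
    apply Real.log_le_log cW
    simpa using hcard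
  have hlog4 : Real.log (4 / κ * (1 + Real.log P.card)) ≤
      5 + 4 * Real.log K + Real.log (1 + Real.log P.card) := by
    rw [Real.log_mul (by positivity) (by linarith)]
    have h1 : Real.log (4 / κ) = 2 * Real.log 2 + (2 * L + 2 * Real.log 2) := by
      have h2 : (4 : ℝ) / κ = 4 * (1 / κ) := by ring
      rw [h2, Real.log_mul (by norm_num) (by positivity), hlogκ]
      have h3 : Real.log 4 = 2 * Real.log 2 := by
        have : (4 : ℝ) = 2 ^ 2 := by norm_num
        rw [this, Real.log_pow]; push_cast; ring
      rw [h3]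
    rw [h1, hL]
    have := Real.log_two_lt_d9
    linarith
  exact h1.trans hlog4

end Pool.Agent.Y359.DB
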