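import Pool.Agent.Y359.DB.Class
import Pool.Agent.Y359.DB.Levels

/-!
The divisor bound for sets with few sums.
-/

set_option autoImplicit false

namespace Pool.Agent.Y359.DB

open Finset H633R5.FS
open scoped Pointwise

/-- the factorisations of `u` with factors in given sets -/
def Fac {k : ℕ} (A : Fin k → Finset ℤ) (u : ℤ) : Finset (Fin k → ℤ) :=
  (Fintype.piFinset A).filter fun f => ∏ i, f i = u

theorem mem_Fac {k : ℕ} {A : Fin k → Finset ℤ} {u : ℤ} {f : Fin k → ℤ} :
    f ∈ Fac A u ↔ (∀ i, f i ∈ A i) ∧ ∏ i, f i = u := by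
  unfold Fac
  rw [Finset.mem_filter, Fintype.mem_piFinset]

/-- logarithmic form -/
theorem divisor_log (k : ℕ) (hk : 1 ≤ k) :
    ∃ C : ℝ, 0 < C ∧ ∀ e : ℝ, 0 < e → e ≤ 1 → ∀ A P : Fin k → Finset ℤ,
      (∀ i, (P i).Nonempty) → ∀ u : ℤ, u ≠ 0 → (Fac A u).Nonempty →
      Real.log (Fac A u).card ≤ ∑ i, (e * Real.log (P i).card +
        Real.exp (C / e) * (Real.log (3 + Real.log (P i).card) +
          Real.log (((A i + P i).card : ℝ) / (P i).card))) := by
  classical
  have hk0 : (0 : ℝ) < k := by exact_mod_cast hk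
  obtain ⟨c, hc, hclass⟩ := class_bound k hk
  refine ⟨4 * k * c + 4, by positivity, ?_⟩
  intro e he he1 A P hP u hu hS
  set e' : ℝ := e / (4 * k) with he'
  have he'0 : 0 < e' := by positivity
  have he'1 : e' ≤ 1 / (2 * k) := by
    rw [he', div_le_div_iff₀ (by positivity) (by positivity)]
    nlinarith
  set M : ℝ := Real.exp (c / e') with hM
  have hM1 : 1 ≤ M := Real.one_le_exp (by positivity)
  have hlog2 : 0 < Real.log 2 := Real.log_pos (by norm_num)
  have hlog2' := Real.log_two_lt_d9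
  set Q : Finset ℕ := (Finset.range ⌈M⌉₊).filter Nat.Prime with hQ
  have hQcard : (Q.card : ℝ) ≤ 2 * M := by
    have h1 : Q.card ≤ ⌈M⌉₊ := (Finset.card_filter_le _ _).trans (by simp)
    have h2 : (⌈M⌉₊ : ℝ) < M + 1 := Nat.ceil_lt_add_one (by linarith)
    have h3 : (Q.card : ℝ) ≤ ⌈M⌉₊ := by exact_mod_cast h1
    linarith
  set S := Fac A u with hSdef
  have hdvd : ∀ τ ∈ S, ∀ i, τ i ∣ u := fun τ hτ i => by
    rw [← (mem_Fac.1 hτ).2]
    exact Finset.dvd_prod_of_mem _ (Finset.mem_univ i)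
  have hne : ∀ τ ∈ S, ∀ i, τ i ≠ 0 := fun τ hτ i h => hu (by
    have := hdvd τ hτ i
    rw [h] at this
    exact zero_dvd_iff.1 this)
  set A' : Fin k → Finset ℤ := fun i => (A i).filter fun a => a ≠ 0 with hA'
  have hA'ne : ∀ i, (A' i).Nonempty := by
    obtain ⟨τ, hτ⟩ := hS
    exact fun i => ⟨τ i, Finset.mem_filter.2 ⟨(mem_Fac.1 hτ).1 i, hne τ hτ i⟩⟩
  have hA'A : ∀ i, A' i ⊆ A i := fun i => Finset.filter_subset _ _
  have hAne : ∀ i, (A i).Nonempty := fun i => (hA'ne i).mono (hA'A i)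
  have cP : ∀ i, (1 : ℝ) ≤ (P i).card := fun i => by exact_mod_cast (hP i).card_pos
  have hlogP : ∀ i, 0 ≤ Real.log (P i).card := fun i => Real.log_nonneg (cP i)
  set κ : Fin k → ℝ := fun i => Real.log (((A i + P i).card : ℝ) / (P i).card) with hκ
  have hK1 : ∀ i, 1 ≤ ((A i + P i).card : ℝ) / (P i).card := fun i => by
    rw [le_div_iff₀ (by linarith [cP i]), one_mul]
    exact_mod_cast Finset.card_le_card_add_left (hAne i)
  have hκ0 : ∀ i, 0 ≤ κ i := fun i => Real.log_nonneg (hK1 i)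
  have hκ' : ∀ i, Real.log (((A' i + P i).card : ℝ) / (P i).card) ≤ κ i := fun i => by
    apply Real.log_le_log
    · have h1 : (0 : ℝ) < (A' i + P i).card := by exact_mod_cast ((hA'ne i).add (hP i)).card_pos
      have := cP i
      positivity
    · apply div_le_div_of_nonneg_right _ (by linarith [cP i])
      exact_mod_cast Finset.card_le_card (Finset.add_subset_add_right (hA'A i))
  set Gi : Fin k → ℝ := fun i => Real.log (3 + Real.log (P i).card) with hGi
  have hG1 : ∀ i, 1 ≤ Gi i := fun i => by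
    show 1 ≤ Real.log (3 + Real.log (P i).card)
    rw [Real.le_log_iff_exp_le (by linarith [hlogP i])]
    linarith [Real.exp_one_lt_d9, hlogP i]
  -- the classes
  set Φ : (Fin k → ℤ) → (Fin k × Q → ℕ) := fun τ x => padicValInt (x.2 : ℕ) (τ x.1) with hΦ
  have himage : S.image Φ ⊆ Fintype.piFinset fun x : Fin k × Q =>
      (A' x.1).image fun a => padicValInt (x.2 : ℕ) a := by
    intro w hw
    obtain ⟨τ, hτ, rfl⟩ := Finset.mem_image.1 hw
    rw [Fintype.mem_piFinset]
    intro x
    exact Finset.mem_image.2 ⟨τ x.1, Finset.mem_filter.2 ⟨(mem_Fac.1 hτ).1 x.1, hne τ hτ x.1⟩, rfl⟩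
  have hclasses : Real.log (S.image Φ).card ≤ ∑ i, 2 * M * (5 + 4 * κ i + Gi i) := by
    have h1 : ((S.image Φ).card : ℝ) ≤
        ∏ x : Fin k × Q, (((A' x.1).image fun a => padicValInt (x.2 : ℕ) a).card : ℝ) := by
      have h2 := Finset.card_le_card himage
      rw [Fintype.card_piFinset] at h2
      exact_mod_cast h2
    have h2 : (0 : ℝ) < (S.image Φ).card := by exact_mod_cast (hS.image Φ).card_pos
    have h3 : ∀ x : Fin k × Q, (((A' x.1).image fun a => padicValInt (x.2 : ℕ) a).card : ℝ) ≠ 0 :=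
      fun x => by
        have := ((hA'ne x.1).image fun a => padicValInt (x.2 : ℕ) a).card_pos
        positivity
    have h4 := Real.log_le_log h2 h1
    rw [Real.log_prod (fun x _ => h3 x), Fintype.sum_prod_type] at h4
    refine h4.trans (Finset.sum_le_sum fun i _ => ?_)
    have h5 : ∀ q : Q, Real.log (((A' i).image fun a => padicValInt (q : ℕ) a).card : ℝ) ≤
        5 + 4 * κ i + Gi i := by
      intro q
      have hq : Fact (q : ℕ).Prime := ⟨(Finset.mem_filter.1 q.2).2⟩
      have h6 := valuations_card (q : ℕ) (A' i) (P i) (hA'ne i) (hP i)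
        (fun a ha => (Finset.mem_filter.1 ha).2)
      have h7 := hκ' i
      have h8 : Real.log (1 + Real.log (P i).card) ≤ Gi i :=
        Real.log_le_log (by linarith [hlogP i]) (by linarith)
      linarith
    calc ∑ q : Q, Real.log (((A' i).image fun a => padicValInt (q : ℕ) a).card : ℝ)
        ≤ ∑ _q : Q, (5 + 4 * κ i + Gi i) := Finset.sum_le_sum fun q _ => h5 q
      _ = Q.card * (5 + 4 * κ i + Gi i) := by
          rw [Finset.sum_const, nsmul_eq_mul, Finset.card_univ, Fintype.card_coe]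
      _ ≤ 2 * M * (5 + 4 * κ i + Gi i) :=
          mul_le_mul_of_nonneg_right hQcard (by linarith [hκ0 i, hG1 i])
  set X : ℝ := 2 * ∑ i, (M * Real.log (2 * (((A i + P i).card : ℝ) / (P i).card)) +
    e' * Real.log (P i).card) + 2 * (k * Real.log 2) with hX
  have hT : ∀ w ∈ S.image Φ, ((S.filter fun τ => Φ τ = w).card : ℝ) ≤ Real.exp X := by
    intro w hw
    obtain ⟨τ₀, hτ₀, hw₀⟩ := Finset.mem_image.1 hw
    have hTne : (S.filter fun τ => Φ τ = w).Nonempty := ⟨τ₀, Finset.mem_filter.2 ⟨hτ₀, hw₀⟩⟩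
    have h1 := hclass e' he'0 he'1 A P hP u hu (S.filter fun τ => Φ τ = w) hTne
      (fun τ hτ => mem_Fac.1 (Finset.mem_filter.1 hτ).1)
      (fun q hq hqM i τ hτ τ' hτ' => by
        have hqQ : q ∈ Q := by
          rw [hQ, Finset.mem_filter, Finset.mem_range]
          exact ⟨Nat.lt_ceil.2 hqM, hq⟩
        have h2 := (Finset.mem_filter.1 hτ).2
        have h3 := (Finset.mem_filter.1 hτ').2
        have h4 := congrFun (h2.trans h3.symm) (i, ⟨q, hqQ⟩)
        exact h4)
    rw [Real.log_le_iff_le_exp (by exact_mod_cast hTne.card_pos)] at h1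
    exact h1
  have hcard : (S.card : ℝ) ≤ (S.image Φ).card * Real.exp X := by
    have h1 := Finset.card_eq_sum_card_image Φ S
    have h2 : (S.card : ℝ) = ∑ w ∈ S.image Φ, ((S.filter fun τ => Φ τ = w).card : ℝ) := by
      rw [h1]; push_cast; rfl
    rw [h2]
    refine (Finset.sum_le_sum hT).trans ?_
    rw [Finset.sum_const, nsmul_eq_mul]
  have cS : (0 : ℝ) < S.card := by exact_mod_cast hS.card_pos
  have cI : (0 : ℝ) < (S.image Φ).card := by exact_mod_cast (hS.image Φ).card_pos
  have h1 : Real.log S.card ≤ Real.log (S.image Φ).card + X := by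
    have h2 := Real.log_le_log cS hcard
    rwa [Real.log_mul cI.ne' (Real.exp_pos _).ne', Real.log_exp] at h2
  have hX' : X = ∑ i, (2 * (M * (Real.log 2 + κ i) + e' * Real.log (P i).card) +
      2 * Real.log 2) := by
    have h3 : (k : ℝ) * Real.log 2 = ∑ _i : Fin k, Real.log 2 := by simp
    rw [hX, h3, Finset.mul_sum, Finset.mul_sum, ← Finset.sum_add_distrib]
    refine Finset.sum_congr rfl fun i _ => ?_
    rw [Real.log_mul (by norm_num) (by linarith [hK1 i])]
  have hE : 15 * M ≤ Real.exp ((4 * k * c + 4) / e) := by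
    have h5 : (4 * k * c + 4) / e = 4 / e + c / e' := by rw [he']; field_simp; ring
    rw [h5, Real.exp_add]
    refine mul_le_mul_of_nonneg_right ?_ (Real.exp_pos _).le
    have h6 : (4 : ℝ) ≤ 4 / e := by rw [le_div_iff₀ he]; linarith
    have h7 : Real.exp 4 ≤ Real.exp (4 / e) := Real.exp_le_exp.2 h6
    have h8 : (15 : ℝ) ≤ Real.exp 4 := by
      have h9 : Real.exp 4 = Real.exp 1 ^ 4 := by rw [← Real.exp_nat_mul]; norm_num
      rw [h9]
      have h10 : (2.7 : ℝ) ≤ Real.exp 1 := by linarith [Real.exp_one_gt_d9]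
      calc (15 : ℝ) ≤ 2.7 ^ 4 := by norm_num
        _ ≤ Real.exp 1 ^ 4 := pow_le_pow_left₀ (by norm_num) h10 4
    linarith
  have h2 : Real.log S.card ≤ ∑ i, (2 * M * (5 + 4 * κ i + Gi i) +
      (2 * (M * (Real.log 2 + κ i) + e' * Real.log (P i).card) + 2 * Real.log 2)) := by
    rw [Finset.sum_add_distrib, ← hX']
    linarith
  refine h2.trans (Finset.sum_le_sum fun i _ => ?_)
  have g1 := hG1 i
  have g2 := hκ0 i
  have g3 := hlogP i
  have h3 : 15 * M * (Gi i + κ i) ≤ Real.exp ((4 * k * c + 4) / e) * (Gi i + κ i) :=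
    mul_le_mul_of_nonneg_right hE (by linarith)
  have h4 : 2 * e' * Real.log (P i).card ≤ e * Real.log (P i).card := by
    refine mul_le_mul_of_nonneg_right ?_ g3
    have h5 : 2 * e' = e / (2 * k) := by rw [he']; field_simp; ring
    rw [h5]
    have h6 : (1 : ℝ) ≤ k := by exact_mod_cast hk
    exact div_le_self he.le (by linarith)
  have h5 : M ≤ M * Gi i := le_mul_of_one_le_right (by linarith) g1
  have h6 : 0 ≤ M * κ i := by positivity
  have h7 : M * Real.log 2 ≤ M * 0.6931471808 :=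
    mul_le_mul_of_nonneg_left hlog2'.le (by linarith)
  show _ ≤ e * Real.log (P i).card + Real.exp ((4 * k * c + 4) / e) * (Gi i + κ i)
  nlinarith

/-- The number of factorisations of `u ≠ 0` with the `i`-th factor in `A i`. -/
theorem divisor_bound (k : ℕ) :
    ∃ C : ℝ, 0 < C ∧ ∀ e : ℝ, 0 < e → e ≤ 1 → ∀ A P : Fin k → Finset ℤ,
      (∀ i, (P i).Nonempty) → ∀ u : ℤ, u ≠ 0 →
      ((Fac A u).card : ℝ) ≤ ∏ i, (((P i).card : ℝ) ^ e * ((3 + Real.log (P i).card) *
          (((A i + P i).card : ℝ) / (P i).card)) ^ Real.exp (C / e)) := by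
  rcases Nat.eq_zero_or_pos k with rfl | hk
  · refine ⟨1, one_pos, ?_⟩
    intro e _ _ A P _ u _
    have h1 : (Fac A u).card ≤ 1 := by
      rw [Finset.card_le_one]
      intro a _ b _
      exact Subsingleton.elim _ _
    simpa using h1
  obtain ⟨C, hC, h⟩ := divisor_log k hk
  refine ⟨C, hC, ?_⟩
  intro e he he1 A P hP u hu
  have cP : ∀ i, (1 : ℝ) ≤ (P i).card := fun i => by exact_mod_cast (hP i).card_pos
  have hlogP : ∀ i, 0 ≤ Real.log (P i).card := fun i => Real.log_nonneg (cP i)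
  rcases (Fac A u).eq_empty_or_nonempty with h0 | hS
  · rw [h0]
    simp only [Finset.card_empty, Nat.cast_zero]
    refine Finset.prod_nonneg fun i _ => ?_
    have := hlogP i
    positivity
  have h1 := h e he he1 A P hP u hu hS
  have hAne : ∀ i, (A i).Nonempty := fun i => by
    obtain ⟨τ, hτ⟩ := hS
    exact ⟨τ i, (mem_Fac.1 hτ).1 i⟩
  have cS : (0 : ℝ) < (Fac A u).card := by exact_mod_cast hS.card_pos
  rw [Real.log_le_iff_le_exp cS, Real.exp_sum] at h1
  refine h1.trans (le_of_eq ?_)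
  refine Finset.prod_congr rfl fun i _ => ?_
  have c1 := cP i
  have c2 := hlogP i
  have c3 : (0 : ℝ) < (A i + P i).card := by exact_mod_cast ((hAne i).add (hP i)).card_pos
  have c4 : (0 : ℝ) < ((A i + P i).card : ℝ) / (P i).card := by positivity
  rw [Real.exp_add, Real.rpow_def_of_pos (by linarith),
    Real.rpow_def_of_pos (mul_pos (by linarith) c4), Real.log_mul (by linarith) c4.ne']
  congr 1
  · congr 1; ring
  · congr 1; ring

end Pool.Agent.Y359.DB
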