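import Pool.Agent.Y359.DB.Final
import Pool.Agent.H633R5.FS.Cor

/-!
Growth of the iterated sumsets, or few factorisations.
-/

set_option autoImplicit false

namespace Pool.Agent.Y359.DB

open Finset H633R5.FS
open scoped Pointwise

/-- Either every nonzero integer has few factorisations into `k` elements of `A`, or the sumsets
grow. -/
theorem growth_fac (k : ℕ) (hk : 1 ≤ k) (ε : ℝ) (hε : 0 < ε) :
    ∃ c : ℝ, 0 < c ∧ ∀ A : Finset ℤ, A.Nonempty → ∀ m : ℕ, 2 ≤ m → (m : ℝ) ≤ Real.log A.card →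
      (∀ u : ℤ, u ≠ 0 → c * ((Fac (fun _ : Fin k => A) u).card : ℝ) ≤ (A.card : ℝ) ^ ε) ∨
        (A.card : ℝ) ^ (1 + c * Real.log m) ≤ (SS m A).card := by
  have hk0 : (1 : ℝ) ≤ k := by exact_mod_cast hk
  set δ : ℝ := min (ε / (4 * k)) (1 / 2) with hδ
  have hδ0 : 0 < δ := by positivity
  have hδ1 : δ ≤ 1 / 2 := min_le_right _ _
  have hδk : 4 * (k * δ) ≤ ε := by
    have h1 : δ ≤ ε / (4 * k) := min_le_left _ _
    rw [le_div_iff₀ (by positivity)] at h1
    linarith
  obtain ⟨C, hC, htup⟩ := divisor_log k hk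
  set D : ℝ := Real.exp (C / δ) with hD
  have hD1 : 1 ≤ D := Real.one_le_exp (by positivity)
  set T : ℝ := k * (2 * δ + 16 * D ^ 2 / δ) with hT
  have hT0 : 0 < T := by positivity
  set c : ℝ := min (min (δ / (4 * C)) (δ / (3 * D))) (Real.exp (-T)) with hc
  have hc0 : 0 < c := by positivity
  have hc1 : c ≤ δ / (4 * C) := (min_le_left _ _).trans (min_le_left _ _)
  have hc2 : c ≤ δ / (3 * D) := (min_le_left _ _).trans (min_le_right _ _)
  have hc3 : c ≤ Real.exp (-T) := min_le_right _ _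
  have hc4 : c ≤ 1 := hc3.trans (Real.exp_le_one_iff.2 (by linarith))
  refine ⟨c, hc0, ?_⟩
  intro A hA m hm hmA
  by_contra hcon
  push Not at hcon
  obtain ⟨⟨u, hu, hprod⟩, hsum⟩ := hcon
  have hm2 : (2 : ℝ) ≤ m := by exact_mod_cast hm
  have hm0 : (0 : ℝ) < m := by linarith
  set ℓ : ℝ := Real.log A.card with hℓ
  have hℓ2 : 2 ≤ ℓ := by linarith
  have cA : (1 : ℝ) ≤ A.card := by exact_mod_cast hA.card_pos
  have hlogm : 0 < Real.log m := Real.log_pos (by linarith)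
  set b : ℝ := c * Real.log m with hb
  have hb0 : 0 < b := by positivity
  -- the factorisations
  have hpowε : 0 < (A.card : ℝ) ^ ε := Real.rpow_pos_of_pos (by linarith) _
  have hFne : (Fac (fun _ : Fin k => A) u).Nonempty := by
    by_contra h
    rw [Finset.not_nonempty_iff_eq_empty] at h
    rw [h] at hprod
    simp only [Finset.card_empty, Nat.cast_zero, mul_zero] at hprod
    linarith
  -- the step
  obtain ⟨j, _, _, hj3, hj4⟩ := slow_step A hA m hm
  have hSm : Real.log (S A m).card ≤ (1 + b) * ℓ := by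
    have h1 : ((S A m).card : ℝ) ≤ (A.card : ℝ) ^ (1 + b) := by
      have h2 : ((S A m).card : ℝ) ≤ (SS m A).card := by
        exact_mod_cast Finset.card_le_card (S_subset A m)
      linarith
    have h2 : (0 : ℝ) < (S A m).card := by exact_mod_cast (S_nonempty hA m).card_pos
    have h3 := Real.log_le_log h2 h1
    rwa [Real.log_rpow (by linarith)] at h3
  have hP : (S A j).Nonempty := S_nonempty hA j
  have cP : (1 : ℝ) ≤ (S A j).card := by exact_mod_cast hP.card_pos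
  have hlogP : 0 ≤ Real.log (S A j).card := Real.log_nonneg cP
  have hlogPb : Real.log (S A j).card ≤ (1 + b) * ℓ := hj3.trans hSm
  set κ : ℝ := Real.log (((A + S A j).card : ℝ) / (S A j).card) with hκ
  have hκ0 : 0 ≤ κ := by
    apply Real.log_nonneg
    rw [le_div_iff₀ (by linarith), one_mul]
    exact_mod_cast Finset.card_le_card_add_left hA
  have hκb : κ ≤ 2 * b * ℓ / m := by
    rw [le_div_iff₀ hm0]
    have h1 : ((m : ℝ) - 1) * κ ≤ b * ℓ := by linarith
    nlinarith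
  -- apply the inequality
  set e : ℝ := δ / (1 + b) with he
  have he0 : 0 < e := by positivity
  have he1 : e ≤ 1 := by
    rw [he, div_le_one (by positivity)]; linarith
  have heb : e * (1 + b) = δ := by
    rw [he]; field_simp
  have h1 := htup e he0 he1 (fun _ => A) (fun _ => S A j) (fun _ => hP) u hu hFne
  rw [Finset.sum_const, Finset.card_univ, Fintype.card_fin, nsmul_eq_mul] at h1
  -- the size of the exponent
  have hE : Real.exp (C / e) ≤ D * (m : ℝ) ^ (1 / 4 : ℝ) := by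
    have h2 : C / e = C / δ + C * b / δ := by rw [he]; field_simp
    rw [h2, Real.exp_add, Real.rpow_def_of_pos hm0]
    refine mul_le_mul_of_nonneg_left ?_ (by linarith)
    apply Real.exp_le_exp.2
    have h3 : C * b / δ = (C * c / δ) * Real.log m := by rw [hb]; ring
    rw [h3, mul_comm (Real.log (m : ℝ))]
    refine mul_le_mul_of_nonneg_right ?_ hlogm.le
    rw [div_le_iff₀ hδ0]
    have h4 : C * c ≤ C * (δ / (4 * C)) := mul_le_mul_of_nonneg_left hc1 hC.le
    have h5 : C * (δ / (4 * C)) = 1 / 4 * δ := by field_simp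
    linarith
  have hE0 : 0 < Real.exp (C / e) := Real.exp_pos _
  -- first loss
  have hloss1 : Real.exp (C / e) * κ ≤ δ * ℓ := by
    have h2 : Real.exp (C / e) * κ ≤ (D * (m : ℝ) ^ (1 / 4 : ℝ)) * (2 * b * ℓ / m) :=
      mul_le_mul hE hκb hκ0 (by positivity)
    have h3 : (m : ℝ) ^ (1 / 4 : ℝ) * (m : ℝ) ^ (3 / 4 : ℝ) = m := by
      rw [← Real.rpow_add hm0]; norm_num
    have h4 : b ≤ c * (4 / 3 * (m : ℝ) ^ (3 / 4 : ℝ)) :=
      mul_le_mul_of_nonneg_left (log_le_pow m hm0) hc0.le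
    have h5 : (D * (m : ℝ) ^ (1 / 4 : ℝ)) * (2 * b * ℓ / m) ≤
        (D * (m : ℝ) ^ (1 / 4 : ℝ)) * (2 * (c * (4 / 3 * (m : ℝ) ^ (3 / 4 : ℝ))) * ℓ / m) := by
      refine mul_le_mul_of_nonneg_left ?_ (by positivity)
      apply div_le_div_of_nonneg_right _ hm0.le
      refine mul_le_mul_of_nonneg_right ?_ (by linarith)
      linarith
    have h6 : (D * (m : ℝ) ^ (1 / 4 : ℝ)) * (2 * (c * (4 / 3 * (m : ℝ) ^ (3 / 4 : ℝ))) * ℓ / m) =
        8 / 3 * D * c * ℓ := by
      have h7 : (D * (m : ℝ) ^ (1 / 4 : ℝ)) * (2 * (c * (4 / 3 * (m : ℝ) ^ (3 / 4 : ℝ))) * ℓ / m) =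
          8 / 3 * D * c * ℓ * ((m : ℝ) ^ (1 / 4 : ℝ) * (m : ℝ) ^ (3 / 4 : ℝ)) / m := by ring
      rw [h7, h3]
      field_simp
    have h7 : 8 / 3 * D * c ≤ δ := by
      have h8 : D * c ≤ D * (δ / (3 * D)) := mul_le_mul_of_nonneg_left hc2 (by linarith)
      have h9 : D * (δ / (3 * D)) = δ / 3 := by field_simp
      linarith
    have h8 : 8 / 3 * D * c * ℓ ≤ δ * ℓ := mul_le_mul_of_nonneg_right h7 (by linarith)
    linarith
  -- second loss
  have hloss2 : Real.exp (C / e) * Real.log (3 + Real.log (S A j).card) ≤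
      δ * ℓ + (2 * δ + 16 * D ^ 2 / δ) := by
    have h2 : b ≤ ℓ := by
      have h3 : Real.log m ≤ m := by
        have := Real.log_le_sub_one_of_pos hm0
        linarith
      have h4 : b ≤ 1 * Real.log m := mul_le_mul_of_nonneg_right hc4 hlogm.le
      linarith
    have h3 : 3 + Real.log (S A j).card ≤ (ℓ + 2) ^ 2 := by nlinarith
    have h4 : Real.log (3 + Real.log (S A j).card) ≤ 2 * Real.log (ℓ + 2) := by
      have h5 := Real.log_le_log (by linarith) h3
      rw [Real.log_pow] at h5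
      push_cast at h5
      exact h5
    have h5 := log_le_sqrt (ℓ + 2) (by linarith)
    have h6 : (m : ℝ) ^ (1 / 4 : ℝ) ≤ (ℓ + 2) ^ (1 / 4 : ℝ) :=
      Real.rpow_le_rpow hm0.le (by linarith) (by norm_num)
    have h0 : 0 ≤ Real.log (3 + Real.log (S A j).card) := Real.log_nonneg (by linarith)
    obtain ⟨q, hq⟩ : ∃ q : ℝ, q = (ℓ + 2) ^ (1 / 4 : ℝ) := ⟨_, rfl⟩
    have hq0 : 0 < q := by rw [hq]; exact Real.rpow_pos_of_pos (by linarith) _
    have hq4 : q ^ 4 = ℓ + 2 := by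
      rw [hq, ← Real.rpow_natCast, ← Real.rpow_mul (by linarith)]
      norm_num
    rw [← hq] at h5 h6
    have h7 : Real.exp (C / e) * Real.log (3 + Real.log (S A j).card) ≤ (D * q) * (8 * q) := by
      have h8 : Real.exp (C / e) ≤ D * q :=
        hE.trans (mul_le_mul_of_nonneg_left h6 (by linarith))
      exact mul_le_mul h8 (by linarith) h0 (by positivity)
    have h8 : (D * q) * (8 * q) ≤ δ * q ^ 4 + 16 * D ^ 2 / δ := by
      have h9 : 0 ≤ (δ * q ^ 2 - 4 * D) ^ 2 / δ := by positivity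
      have h10 : (δ * q ^ 2 - 4 * D) ^ 2 / δ = δ * q ^ 4 - 8 * D * q ^ 2 + 16 * D ^ 2 / δ := by
        field_simp
        ring
      rw [h10] at h9
      linarith
    rw [hq4] at h8
    linarith
  have h2 : Real.log (Fac (fun _ : Fin k => A) u).card ≤
      (k : ℝ) * (δ * ℓ + ((δ * ℓ + (2 * δ + 16 * D ^ 2 / δ)) + δ * ℓ)) := by
    refine le_trans h1 (mul_le_mul_of_nonneg_left ?_ (by linarith))
    have h3 : e * Real.log (S A j).card ≤ δ * ℓ := by
      have h4 : e * Real.log (S A j).card ≤ e * ((1 + b) * ℓ) :=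
        mul_le_mul_of_nonneg_left hlogPb he0.le
      have h5 : e * ((1 + b) * ℓ) = δ * ℓ := by rw [← mul_assoc, heb]
      linarith
    rw [mul_add]
    linarith
  have cF : (0 : ℝ) < (Fac (fun _ : Fin k => A) u).card := by exact_mod_cast hFne.card_pos
  have h3 : Real.log ((A.card : ℝ) ^ ε) <
      Real.log (c * ((Fac (fun _ : Fin k => A) u).card : ℝ)) := Real.log_lt_log hpowε hprod
  rw [Real.log_mul hc0.ne' cF.ne', Real.log_rpow (by linarith), ← hℓ] at h3
  have h4 : Real.log c ≤ -T := by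
    rw [Real.log_le_iff_le_exp hc0]; exact hc3
  have h5 : 4 * (k * δ) * ℓ ≤ ε * ℓ := mul_le_mul_of_nonneg_right hδk (by linarith)
  have h6 : (k : ℝ) * (δ * ℓ + ((δ * ℓ + (2 * δ + 16 * D ^ 2 / δ)) + δ * ℓ)) =
      3 * (k * δ) * ℓ + T := by rw [hT]; ring
  rw [h6] at h2
  have h7 : 0 ≤ (k * δ) * ℓ := by positivity
  linarith

/-- products along an arbitrary set of tuples -/
theorem card_le_image_mul {k : ℕ} (A : Finset ℤ) (H : Finset (Fin k → ℤ)) (X : ℝ)
    (hH : ∀ f ∈ H, (∀ i, f i ∈ A) ∧ ∏ i, f i ≠ 0)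
    (hX : ∀ u : ℤ, u ≠ 0 → ((Fac (fun _ : Fin k => A) u).card : ℝ) ≤ X) :
    (H.card : ℝ) ≤ ((H.image fun f => ∏ i, f i).card : ℝ) * X := by
  have h1 := Finset.card_eq_sum_card_image (fun f : Fin k → ℤ => ∏ i, f i) H
  have h2 : (H.card : ℝ) = ∑ u ∈ H.image fun f => ∏ i, f i,
      ((H.filter fun f => ∏ i, f i = u).card : ℝ) := by
    rw [h1]; push_cast; rfl
  rw [h2]
  have h3 : ∀ u ∈ H.image (fun f => ∏ i, f i), ((H.filter fun f => ∏ i, f i = u).card : ℝ) ≤ X := by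
    intro u hu
    obtain ⟨f, hf, rfl⟩ := Finset.mem_image.1 hu
    refine le_trans ?_ (hX _ (hH f hf).2)
    have h4 : (H.filter fun f' => ∏ i, f' i = ∏ i, f i) ⊆ Fac (fun _ : Fin k => A) (∏ i, f i) := by
      intro f' hf'
      obtain ⟨h5, h6⟩ := Finset.mem_filter.1 hf'
      exact mem_Fac.2 ⟨(hH f' h5).1, h6⟩
    exact_mod_cast Finset.card_le_card h4
  refine (Finset.sum_le_sum h3).trans ?_
  rw [Finset.sum_const, nsmul_eq_mul]

/-- Either all sets of `k`-tuples have almost as many products as elements, or the sumsets grow. -/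
theorem growth_graph (k : ℕ) (hk : 1 ≤ k) (ε : ℝ) (hε : 0 < ε) :
    ∃ c : ℝ, 0 < c ∧ ∀ A : Finset ℤ, A.Nonempty → ∀ m : ℕ, 2 ≤ m → (m : ℝ) ≤ Real.log A.card →
      (∀ H : Finset (Fin k → ℤ), (∀ f ∈ H, (∀ i, f i ∈ A) ∧ ∏ i, f i ≠ 0) →
        c * (H.card : ℝ) ≤ (A.card : ℝ) ^ ε * ((H.image fun f => ∏ i, f i).card : ℝ)) ∨
        (A.card : ℝ) ^ (1 + c * Real.log m) ≤ (SS m A).card := by
  obtain ⟨c, hc, h⟩ := growth_fac k hk ε hε
  refine ⟨c, hc, ?_⟩
  intro A hA m hm hmA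
  rcases h A hA m hm hmA with h1 | h1
  · left
    intro H hH
    have h2 := card_le_image_mul A H ((A.card : ℝ) ^ ε / c) hH (fun u hu => by
      rw [le_div_iff₀ hc, mul_comm]
      exact h1 u hu)
    have h3 := mul_le_mul_of_nonneg_left h2 hc.le
    refine h3.trans (le_of_eq ?_)
    field_simp
  · exact Or.inr h1

end Pool.Agent.Y359.DB
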