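import Pool.Agent.Y359.DB.Growth

/-!
Sets with `|A + A| ≤ |A| ^ (1 + δ)`.
-/

set_option autoImplicit false

namespace Pool.Agent.Y359.DB

open Finset H633R5.FS
open scoped Pointwise

theorem sumset_fac (k : ℕ) (hk : 1 ≤ k) :
    ∃ C : ℝ, 0 < C ∧ ∀ δ : ℝ, 0 < δ → δ ≤ 1 / C → ∀ A : Finset ℤ, A.Nonempty →
      ((A + A).card : ℝ) ≤ (A.card : ℝ) ^ (1 + δ) → ∀ u : ℤ, u ≠ 0 →
      ((Fac (fun _ : Fin k => A) u).card : ℝ) ≤
        (A.card : ℝ) ^ (C / Real.log (1 / δ)) * (3 + Real.log A.card) ^ (C / Real.sqrt δ) := by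
  have hk0 : (1 : ℝ) ≤ k := by exact_mod_cast hk
  obtain ⟨C₀, hC₀, h⟩ := divisor_bound k
  set C : ℝ := max (k * (2 * C₀ + 1)) (max k (Real.exp (2 * C₀))) with hC
  have hC1 : k * (2 * C₀ + 1) ≤ C := le_max_left _ _
  have hC2 : (k : ℝ) ≤ C := (le_max_left _ _).trans (le_max_right _ _)
  have hC3 : Real.exp (2 * C₀) ≤ C := (le_max_right _ _).trans (le_max_right _ _)
  have hC0 : 0 < C := by linarith
  refine ⟨C, hC0, ?_⟩
  intro δ hδ hδC A hA hAA u hu
  have cA : (1 : ℝ) ≤ A.card := by exact_mod_cast hA.card_pos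
  have hinv : Real.exp (2 * C₀) ≤ 1 / δ := by
    rw [le_div_iff₀ hδ]
    rw [le_div_iff₀ hC0] at hδC
    nlinarith
  set lg : ℝ := Real.log (1 / δ) with hlg
  have hlg1 : 2 * C₀ ≤ lg := by
    rw [hlg, Real.le_log_iff_exp_le (by positivity)]
    exact hinv
  have hlg0 : 0 < lg := by linarith
  set e : ℝ := 2 * C₀ / lg with he
  have he0 : 0 < e := by positivity
  have he1 : e ≤ 1 := by rw [he, div_le_one hlg0]; exact hlg1
  have hsq : 0 < Real.sqrt δ := Real.sqrt_pos.2 hδ
  have hsqsq : Real.sqrt δ * Real.sqrt δ = δ := Real.mul_self_sqrt hδ.le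
  have hexp : Real.exp (C₀ / e) = 1 / Real.sqrt δ := by
    have h1 : C₀ / e = Real.log (1 / Real.sqrt δ) := by
      have h2 : Real.log (1 / Real.sqrt δ) = lg / 2 := by
        rw [one_div, Real.log_inv, Real.log_sqrt hδ.le, hlg, one_div, Real.log_inv]
        ring
      rw [h2, he]
      field_simp
    rw [h1, Real.exp_log (by positivity)]
  have h1 := h e he0 he1 (fun _ => A) (fun _ => A) (fun _ => hA) u hu
  rw [Finset.prod_const, Finset.card_univ, Fintype.card_fin, hexp] at h1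
  refine h1.trans ?_
  have hlA : 0 ≤ Real.log A.card := Real.log_nonneg cA
  have hb : (1 : ℝ) ≤ 3 + Real.log A.card := by linarith
  have hquot : ((A + A).card : ℝ) / A.card ≤ (A.card : ℝ) ^ δ := by
    rw [div_le_iff₀ (by linarith)]
    refine hAA.trans (le_of_eq ?_)
    rw [Real.rpow_add (by linarith), Real.rpow_one, mul_comm]
  have hq0 : (0 : ℝ) ≤ ((A + A).card : ℝ) / A.card := by positivity
  have hp0 : 0 ≤ 1 / Real.sqrt δ := by positivity
  have h2 : (A.card : ℝ) ^ e * ((3 + Real.log A.card) * (((A + A).card : ℝ) / A.card)) ^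
      (1 / Real.sqrt δ) ≤ (A.card : ℝ) ^ (e + Real.sqrt δ) *
        (3 + Real.log A.card) ^ (1 / Real.sqrt δ) := by
    have h3 : ((3 + Real.log A.card) * (((A + A).card : ℝ) / A.card)) ^ (1 / Real.sqrt δ) ≤
        ((3 + Real.log A.card) * (A.card : ℝ) ^ δ) ^ (1 / Real.sqrt δ) :=
      Real.rpow_le_rpow (by positivity) (mul_le_mul_of_nonneg_left hquot (by linarith)) hp0
    have h4 : ((3 + Real.log A.card) * (A.card : ℝ) ^ δ) ^ (1 / Real.sqrt δ) =
        (3 + Real.log A.card) ^ (1 / Real.sqrt δ) * (A.card : ℝ) ^ (Real.sqrt δ) := by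
      rw [Real.mul_rpow (by linarith) (by positivity), ← Real.rpow_mul (by linarith)]
      congr 2
      rw [mul_one_div, div_eq_iff hsq.ne', hsqsq]
    rw [h4] at h3
    have h5 := mul_le_mul_of_nonneg_left h3 (Real.rpow_nonneg (by linarith : (0:ℝ) ≤ A.card) e)
    refine h5.trans (le_of_eq ?_)
    rw [Real.rpow_add (by linarith)]
    ring
  have h3 := pow_le_pow_left₀ (by positivity) h2 k
  refine h3.trans ?_
  rw [mul_pow, ← Real.rpow_mul_natCast (by linarith), ← Real.rpow_mul_natCast (by linarith)]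
  have hlgs : Real.sqrt δ ≤ 1 / lg := by
    rw [le_div_iff₀ hlg0]
    have h4 : lg = 2 * Real.log (1 / Real.sqrt δ) := by
      rw [hlg, one_div, one_div, Real.log_inv, Real.log_inv, Real.log_sqrt hδ.le]; ring
    -- `log y ≤ y / 2` for `y > 0`
    have h5 : Real.log (1 / Real.sqrt δ) ≤ (1 / Real.sqrt δ) / 2 := by
      have hy : 0 < 1 / Real.sqrt δ := by positivity
      have h6 := Real.log_le_sub_one_of_pos (x := 1 / Real.sqrt δ / 2) (by positivity)
      rw [Real.log_div hy.ne' (by norm_num)] at h6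
      have := Real.log_two_lt_d9
      linarith
    rw [h4]
    have h6 : Real.sqrt δ * (2 * Real.log (1 / Real.sqrt δ)) ≤
        Real.sqrt δ * (2 * ((1 / Real.sqrt δ) / 2)) :=
      mul_le_mul_of_nonneg_left (by linarith) hsq.le
    refine h6.trans (le_of_eq ?_)
    field_simp
  apply mul_le_mul
  · apply Real.rpow_le_rpow_of_exponent_le cA
    have h4 : e + Real.sqrt δ ≤ (2 * C₀ + 1) / lg := by
      have h5 : (2 * C₀ + 1) / lg = e + 1 / lg := by rw [he]; field_simp
      linarith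
    have h5 : (e + Real.sqrt δ) * k ≤ (2 * C₀ + 1) / lg * k :=
      mul_le_mul_of_nonneg_right h4 (by linarith)
    refine h5.trans ?_
    have h6 : (2 * C₀ + 1) / lg * k = (k * (2 * C₀ + 1)) / lg := by ring
    rw [h6]
    exact div_le_div_of_nonneg_right hC1 hlg0.le
  · apply Real.rpow_le_rpow_of_exponent_le hb
    rw [one_div, inv_mul_eq_div]
    exact div_le_div_of_nonneg_right hC2 hsq.le
  · positivity
  · positivity

end Pool.Agent.Y359.DB
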